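import Mathlib
import Pool.Agent.MP_e262d6_nt.Cubic

set_option autoImplicit false

namespace Pool.Agent.Results.MP_e262d6_nt.CubicDigits

open Pool.Agent.MP_e262d6_nt

/-- The vanishing conjecture over the field with `r ^ 3` elements, `r = p ^ m`, for exponents
that are quotients of two sums of three powers of `r`. -/
theorem result (p : ℕ) [Fact p.Prime] (L : Type) [Field L] [Fintype L] [Algebra (ZMod p) L]
    (m s i j k i' j' k' : ℕ) (hr : 3 < p ^ m) (hL : Fintype.card L = (p ^ m) ^ 3)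
    (hs : Nat.Coprime s (Fintype.card L - 1))
    (hB : Nat.Coprime ((p ^ m) ^ i' + (p ^ m) ^ j' + (p ^ m) ^ k') (Fintype.card L - 1))
    (h : s * ((p ^ m) ^ i' + (p ^ m) ^ j' + (p ^ m) ^ k') ≡
      (p ^ m) ^ i + (p ^ m) ^ j + (p ^ m) ^ k [MOD Fintype.card L - 1]) :
    ∃ a : L, a ≠ 0 ∧
      ∑ x : L, Complex.exp (2 * (Real.pi : ℂ) * Complex.I *
        ((Algebra.trace (ZMod p) L (a * x + x ^ s)).val : ℂ) / (p : ℂ)) = 0 := by
  obtain ⟨C, hχ, hσ⟩ := exists_ctx p m hr hL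
  set r := p ^ m with hrd
  have it : ∀ (n : ℕ) (y : L), C.σ^[n] y = y ^ r ^ n := fun n y => by
    rw [show (C.σ : L → L) = (· ^ r) from funext hσ, pow_iterate]
  have pr : ∀ (a b c : ℕ) (y : L), C.σ^[a] y * C.σ^[b] y * C.σ^[c] y = y ^ (r ^ a + r ^ b + r ^ c) :=
    fun a b c y => by rw [it, it, it, pow_add, pow_add]
  have h0 : ∀ a b c : ℕ, r ^ a + r ^ b + r ^ c ≠ 0 := fun a b c => by positivity
  have hq : 1 < Fintype.card L - 1 := by
    have : 4 ^ 3 ≤ r ^ 3 := Nat.pow_le_pow_left hr 3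
    omega
  have hs0 : s ≠ 0 := fun h1 => by
    rw [h1, Nat.coprime_zero_left] at hs; omega
  have hA : Nat.Coprime (r ^ i + r ^ j + r ^ k) (Fintype.card L - 1) := by
    rw [Nat.Coprime, ← h.gcd_eq]
    exact Nat.Coprime.mul_left hs hB
  obtain ⟨u, v, hu, hv, h1⟩ := C.cubic i j k i' j' k'
    (by simp only [pr]; exact pow_inj hA (h0 _ _ _)) (by simp only [pr]; exact pow_inj hB (h0 _ _ _))
  simp only [pr] at h1
  obtain ⟨a, ha, h2⟩ := to_spec C.χ hs hB h hs0 (h0 _ _ _) (h0 _ _ _) hu hv h1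
  exact ⟨a, ha, by simpa only [hχ, can_apply] using h2⟩

end Pool.Agent.Results.MP_e262d6_nt.CubicDigits
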