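import Mathlib
import Pool.Agent.MP_e262d6_nt.h61.Build

set_option autoImplicit false

namespace Pool.Agent.Results.MP_e262d6_nt.Dobbertin

open Pool.Agent.MP_e262d6_nt.H61

/-- The vanishing conjecture for the Dobbertin exponent
`d = 2 ^ (4 m) + 2 ^ (3 m) + 2 ^ (2 m) + 2 ^ m - 1` over the field with `2 ^ (5 m)` elements,
`m` odd, for its cyclotomic class and for the class of its inverse. -/
theorem result (L : Type) [Field L] [Fintype L] [Algebra (ZMod 2) L] (m s i : ℕ) (hm : Odd m)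
    (hL : Fintype.card L = 2 ^ (5 * m)) (hs : 0 < s)
    (h : s ≡ 2 ^ i * (2 ^ (4 * m) + 2 ^ (3 * m) + 2 ^ (2 * m) + 2 ^ m - 1)
        [MOD Fintype.card L - 1] ∨
      s * (2 ^ (4 * m) + 2 ^ (3 * m) + 2 ^ (2 * m) + 2 ^ m - 1) ≡ 2 ^ i
        [MOD Fintype.card L - 1]) :
    ∃ a : L, a ≠ 0 ∧
      ∑ x : L, Complex.exp (2 * (Real.pi : ℂ) * Complex.I *
        ((Algebra.trace (ZMod 2) L (a * x + x ^ s)).val : ℂ) / ((2 : ℕ) : ℂ)) = 0 := by
  obtain ⟨a, ha, h0⟩ := dob_zero L hm hL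
  have r1 : 1 ≤ 2 ^ m := Nat.one_le_two_pow
  have r2 : 1 ≤ 2 ^ (2 * m) := Nat.one_le_two_pow
  have r3 : 1 ≤ 2 ^ (3 * m) := Nat.one_le_two_pow
  have r4 : 1 ≤ 2 ^ (4 * m) := Nat.one_le_two_pow
  have hd : 0 < 2 ^ (4 * m) + 2 ^ (3 * m) + 2 ^ (2 * m) + 2 ^ m - 1 := by omega
  generalize 2 ^ (4 * m) + 2 ^ (3 * m) + 2 ^ (2 * m) + 2 ^ m - 1 = d at h h0 hd
  have : CharP L 2 := charP_of_injective_algebraMap (algebraMap (ZMod 2) L).injective 2
  have pc : ∀ {u v : ℕ}, u ≡ v [MOD Fintype.card L - 1] → 0 < u → 0 < v → ∀ x : L,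
      x ^ u = x ^ v := fun {u v} huv hu hv x => by
    by_cases hx : x = 0
    · rw [hx, zero_pow hu.ne', zero_pow hv.ne']
    · have h1 := FiniteField.pow_card_sub_one_eq_one x hx
      rw [pow_eq_pow_mod u h1, pow_eq_pow_mod v h1, huv]
  simp only [can_apply, ← Complex.ofReal_sum, Complex.ofReal_eq_zero]
  rcases h with h | h
  · refine ⟨a, ha, Eq.trans (Finset.sum_congr rfl fun x _ => ?_) h0⟩
    rw [pc h hs (by positivity), mul_comm _ d, pow_mul, AddChar.map_add_eq_mul,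
      AddChar.map_add_eq_mul, can_pow]
  · have h1 : ∀ x : L, (x ^ d) ^ s = x ^ 2 ^ i := fun x => by
      rw [← pow_mul, mul_comm, pc h (by positivity) (by positivity)]
    have hb : Function.Bijective fun z : L => (a * z) ^ d :=
      Finite.injective_iff_bijective.1 fun x y hxy => by
        have h2 : ((a * x) ^ d) ^ s = ((a * y) ^ d) ^ s := congrArg (· ^ s) hxy
        rw [h1, h1, ← iterateFrobenius_def, ← iterateFrobenius_def] at h2
        exact mul_left_cancel₀ ha ((iterateFrobenius L 2 i).injective h2)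
    refine ⟨(a ^ d)⁻¹, inv_ne_zero (pow_ne_zero _ ha), ?_⟩
    rw [← hb.sum_comp, ← h0]
    refine Finset.sum_congr rfl fun x _ => ?_
    rw [h1, mul_pow, inv_mul_cancel_left₀ (pow_ne_zero _ ha), AddChar.map_add_eq_mul,
      AddChar.map_add_eq_mul, can_pow, mul_comm]

end Pool.Agent.Results.MP_e262d6_nt.Dobbertin
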