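import Mathlib
import Pool.Agent.MP_e262d6_nt.DW.All

set_option autoImplicit false

namespace Pool.Agent.Results.MP_e262d6_nt.DobbertinWalsh

open Pool.Agent.MP_e262d6_nt.H61 Pool.Agent.MP_e262d6_nt.DW

/-- the canonical additive character `exp (2 π i Tr x / 2)` of a field of characteristic two -/
noncomputable def mu (F : Type) [Field F] [Algebra (ZMod 2) F] (x : F) : ℂ :=
  Complex.exp (2 * (Real.pi : ℂ) * Complex.I * ((Algebra.trace (ZMod 2) F x).val : ℂ) /
    ((2 : ℕ) : ℂ))

/-- The complete Walsh transform of the Dobbertin function `x ^ d`,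
`d = r ^ 4 + r ^ 3 + r ^ 2 + r - 1`, on the field with `r ^ 5` elements, `r` a power of two. -/
theorem result (K L : Type) [Field K] [Fintype K] [DecidableEq K] [Algebra (ZMod 2) K]
    [Field L] [Fintype L] [DecidableEq L] [Algebra (ZMod 2) L] [Algebra K L]
    (hL : Module.finrank K L = 5) (r : ℕ) (hr : r = Fintype.card K)
    (a v : L) (hv : v ≠ 0) (A : L) (hA : A = a ^ 2 * v) (n T e2 e3 : K)
    (hn : n = Algebra.norm K v) (hT : T = Algebra.trace K L A)
    (h2 : e2 = Algebra.trace K L (A ^ (1 + r) + A ^ (1 + r ^ 2)))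
    (h3 : e3 = Algebra.trace K L (A ^ (1 + r + r ^ 2) + A ^ (1 + r + r ^ 3))) :
    ∑ x : L, mu L (a * x + v * x ^ (r ^ 4 + r ^ 3 + r ^ 2 + r - 1)) = (r : ℂ) ^ 2 *
      if T = 0 then ∑ z : K, mu K ((z ^ 3 + e2 * z + e3) / n)
      else mu K (e2 / T ^ 2 + n / T ^ 3) *
        (∑ z ∈ Finset.univ.erase (0 : K),
            mu K (z + Algebra.norm K (A + algebraMap K L (n / T ^ 2)) / (n * T ^ 2) / z) -
          if A = algebraMap K L (n / T ^ 2) then (r : ℂ) else 0) := by
  have : CharP L 2 := charP_of_injective_algebraMap (algebraMap (ZMod 2) L).injective 2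
  have : CharP K 2 := charP_of_injective_algebraMap (algebraMap (ZMod 2) K).injective 2
  have F := mkFv K L hL
  have k2 : e2 = F.e2 A := by
    simp only [h2, hr, Fv.e2, F.pw, ← pow_mul]
    congr 1
    ring
  have k3 : e3 = F.e3 A := by
    simp only [h3, hr, Fv.e3, F.pw, ← pow_mul]
    congr 1
    ring
  have h := main_all K L F (canC K) n A (hn ▸ Algebra.norm_ne_zero_iff.2 hv)
  rw [← k2, ← k3, ← hT, hn, hA, ← walsh_eq F a hv, ← hr, ← hn, ← hA] at h
  have h' := congrArg (fun y : ℝ => (y : ℂ)) h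
  simp only [mu, can_apply]
  simpa only [Klo, U, canC, apply_ite (fun y : ℝ => (y : ℂ)), Complex.ofReal_sum,
    Complex.ofReal_mul, Complex.ofReal_pow, Complex.ofReal_natCast, Complex.ofReal_sub,
    Complex.ofReal_zero] using h'

end Pool.Agent.Results.MP_e262d6_nt.DobbertinWalsh
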