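import Mathlib
import Pool.Agent.MP_e262d6_nt.Cubic

set_option autoImplicit false

namespace Pool.Agent.Results.MP_e262d6_nt.Twisted

open Pool.Agent.MP_e262d6_nt

/-- The vanishing conjecture over the field with `r ^ 3` elements, `r = p ^ m`, `p ≥ 5`, for the
exponents `(p ^ j + 2) / (p ^ j + r + r ^ 2)`. -/
theorem result (p : ℕ) [Fact p.Prime] (L : Type) [Field L] [Fintype L] [Algebra (ZMod p) L]
    (m s j : ℕ) (hp : 5 ≤ p) (hL : Fintype.card L = (p ^ m) ^ 3)
    (hs : Nat.Coprime s (Fintype.card L - 1))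
    (hB : Nat.Coprime (p ^ j + p ^ m + (p ^ m) ^ 2) (Fintype.card L - 1))
    (h : s * (p ^ j + p ^ m + (p ^ m) ^ 2) ≡ p ^ j + 2 [MOD Fintype.card L - 1]) :
    ∃ a : L, a ≠ 0 ∧
      ∑ x : L, Complex.exp (2 * (Real.pi : ℂ) * Complex.I *
        ((Algebra.trace (ZMod p) L (a * x + x ^ s)).val : ℂ) / (p : ℂ)) = 0 := by
  have hpp : p.Prime := Fact.out
  have : CharP L p := charP_of_injective_algebraMap (algebraMap (ZMod p) L).injective p
  have hm : m ≠ 0 := fun h0 => by
    have := Fintype.one_lt_card (α := L)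
    rw [hL, h0] at this
    simp at this
  have hr : 3 < p ^ m := lt_of_lt_of_le (by omega) (Nat.le_self_pow hm p)
  obtain ⟨C, hχ, hσ⟩ := exists_ctx p m hr hL
  have nz : ∀ n : ℕ, 0 < n → n < p → (n : L) ≠ 0 := fun n h1 h2 h3 =>
    absurd (Nat.le_of_dvd h1 ((CharP.cast_eq_zero_iff L p n).1 h3)) (by omega)
  have hq : 1 < Fintype.card L - 1 := by
    have : 4 ^ 3 ≤ (p ^ m) ^ 3 := Nat.pow_le_pow_left hr 3
    omega
  have hs0 : s ≠ 0 := fun h1 => by
    rw [h1, Nat.coprime_zero_left] at hs; omega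
  have hA : Nat.Coprime (p ^ j + 2) (Fintype.card L - 1) := by
    rw [Nat.Coprime, ← h.gcd_eq]
    exact Nat.Coprime.mul_left hs hB
  have h1 := C.twisted (by exact_mod_cast nz 3 (by omega) (by omega)) (p ^ j)
    (iterateFrobenius L p j) (fun x => iterateFrobenius_def ..) (pow_inj hA (by positivity))
  simp only [hσ, iterateFrobenius_def, ← pow_mul, ← pow_add, ← sq] at h1
  rw [pow_mul p m 2] at h1
  obtain ⟨a, ha, h2⟩ := to_spec C.χ hs hB h hs0 (by positivity) (by positivity) one_ne_zero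
    (by exact_mod_cast nz 2 (by omega) (by omega)) h1
  exact ⟨a, ha, by simpa only [hχ, can_apply] using h2⟩

end Pool.Agent.Results.MP_e262d6_nt.Twisted
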